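import Pool.Agent.H83.UE.Targets3

/-!
# (PKE) equidistribution for all Ueda maps of projective space and generic algebraic sets
-/

set_option autoImplicit false

open Polynomial MeasureTheory Filter Topology Set
open scoped OnePoint ComplexConjugate ComplexOrder Laplacian ENNReal Nat
open Pool.Agent.H83.UE

namespace Pool.Agent.H38.UDB

/-- the chart of an algebraic set is closed -/
theorem chart_closed {k : ℕ} (𝓕 : Set (MvPolynomial (Fin (k + 1)) ℂ)) : IsClosed (chart 𝓕) := by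
  have h1 : chart 𝓕 = ⋂ F ∈ 𝓕, (fun w : Fin k → ℂ =>
      MvPolynomial.eval (Fin.snoc w 1 : Fin (k + 1) → ℂ) F) ⁻¹' {0} := by
    ext w
    simp only [chart, mem_ofPred_eq, mem_iInter, mem_preimage, mem_singleton_iff]
  rw [h1]
  refine isClosed_biInter fun F _ => IsClosed.preimage ?_ isClosed_singleton
  have h2 : Continuous fun w : Fin k → ℂ => (Fin.snoc w 1 : Fin (k + 1) → ℂ) := by
    refine continuous_pi fun i => ?_
    refine Fin.lastCases ?_ (fun j => ?_) i
    · simp only [Fin.snoc_last]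
      exact continuous_const
    · simp only [Fin.snoc_castSucc]
      exact continuous_apply j
  exact (MvPolynomial.continuous_eval F).comp h2

/-- a compactly supported function vanishes far away -/
theorem far_zero {k : ℕ} (ff : (Fin k → ℂ) → ℂ) (h : HasCompactSupport ff) :
    ∃ R : ℝ, ∀ x, (∃ l, R ≤ ‖x l‖) → ff x = 0 := by
  obtain ⟨R, hR⟩ := h.isCompact.isBounded.subset_closedBall 0
  refine ⟨R + 1, fun x hx => ?_⟩
  obtain ⟨l, hl⟩ := hx
  refine image_eq_zero_of_notMem_tsupport fun hx2 => ?_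
  have h1 := hR hx2
  rw [Metric.mem_closedBall, dist_zero_right] at h1
  have h2 := norm_le_pi_norm x l
  linarith

theorem pf_PKE (h1 : T_LGE) (h2 : T_GRN) (h3 : T_MUE) (h4 : T_MNE) (h5 : T_BD) (h6 : T_SLE)
    (h7 : T_TAM) (h8 : T_TF) (h9 : T_IT) : T_PKE := by
  intro k m d hd hmk g
  obtain ⟨E, κ, hE, hgood⟩ := h1 d hd g
  obtain ⟨G, hG⟩ := h2 d hd g
  obtain ⟨ν, hνp, hν⟩ := h3 d hd g E κ hgood G hG
  refine ⟨ν, ⟨hνp, G, hG.1, hG.2.1, hν⟩, ?_⟩
  intro 𝓕 δ h𝓕 hV hgen L χ hχ hχs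
  obtain ⟨T, hc, hsup, hT⟩ := h6 k m d (by omega) hmk g (chart 𝓕) δ
    (chart_closed 𝓕).measurableSet hV
  have htame : Tame (fun _ => E) T := h7 k m d hmk g E hE 𝓕 h𝓕 hgen T hsup
  have hdata : Data (fun _ : Fin k => g) (fun _ => E) κ (fun _ => G) (fun _ => ν) :=
    ⟨fun _ => hgood, fun _ => hG, fun _ => hνp, fun _ => hν⟩
  have hlim := fun I J χ h h' => h4 k m d hd hmk (fun _ => g) (fun _ => E) κ (fun _ => G)
    (fun _ => ν) hdata T htame I J χ h h'
  have hint : ∀ n : ℕ, ∀ χ : (Fin k → ℂ) → ℂ, Continuous χ → HasCompactSupport χ → ∀ I J,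
      Integrable (fun z => pushCoeff (fun _ => g) n I J (tform L χ I J) z * T.h z I J) T.σ := by
    intro n χ hχ hχs I J
    obtain ⟨-, h10, h11⟩ := h8 k m L χ I J hχ hχs
    obtain ⟨R, hR⟩ := far_zero _ h11
    obtain ⟨B, hB⟩ := h11.exists_bound_of_continuous h10
    have hB0 : 0 ≤ B := (norm_nonneg _).trans (hB 0)
    obtain ⟨C, -, hC⟩ := h5 k m d hd hmk (fun _ => g) R
    exact (hC T I J n B (tform L χ I J) hB0 h10 hB hR).1
  have hsl : ∀ n : ℕ, ((d : ℂ) ^ ((k - m) * n))⁻¹ * slice g n (chart 𝓕) L χ =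
      (k ! : ℂ)⁻¹ * ∑ I : Idx k m, ∑ J : Idx k m,
        pairing (fun _ => g) n T I J (tform L χ I J) := by
    intro n
    rw [hT n L (hint n) χ hχ hχs, mul_left_comm, Finset.mul_sum]
    congr 1
    refine Finset.sum_congr rfl fun I _ => ?_
    rw [Finset.mul_sum]
    rfl
  have hfun : (fun n => ((d : ℂ) ^ ((k - m) * n))⁻¹ * slice g n (chart 𝓕) L χ) = fun n =>
      (k ! : ℂ)⁻¹ * ∑ I : Idx k m, ∑ J : Idx k m,
        pairing (fun _ => g) n T I J (tform L χ I J) := funext hsl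
  rw [hfun]
  have hl : Tendsto (fun n => (k ! : ℂ)⁻¹ * ∑ I : Idx k m, ∑ J : Idx k m,
        pairing (fun _ => g) n T I J (tform L χ I J)) atTop (𝓝 ((k ! : ℂ)⁻¹ *
        ∑ I : Idx k m, ∑ J : Idx k m, limVal (fun _ => ν) T I J (tform L χ I J))) := by
    refine Tendsto.const_mul _ (tendsto_finsetSum _ fun I _ => tendsto_finsetSum _ fun J _ => ?_)
    obtain ⟨-, h10, h11⟩ := h8 k m L χ I J hχ hχs
    exact hlim I J _ h10 h11
  have hval : (k ! : ℂ)⁻¹ * ∑ I : Idx k m, ∑ J : Idx k m,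
      limVal (fun _ => ν) T I J (tform L χ I J) = δ * greenSlice ν L χ := by
    have h10 : ∀ I : Idx k m, ∑ J : Idx k m, limVal (fun _ => ν) T I J (tform L χ I J) =
        ((k - m)! * δ : ℂ) * ∫ z, χ (coef z) *
          (‖minor (fun x => L (coef x)) I z‖ ^ 2 : ℝ) ∂(limMeas (fun _ => ν) I) := by
      intro I
      have h11 : ∀ J : Idx k m, limVal (fun _ => ν) T I J (tform L χ I J) =
          if I = J then ((k - m)! * δ : ℂ) * ∫ z, χ (coef z) *
          (‖minor (fun x => L (coef x)) I z‖ ^ 2 : ℝ) ∂(limMeas (fun _ => ν) I) else 0 := by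
        intro J
        unfold limVal
        by_cases hIJ : I = J
        · rw [if_pos hIJ, if_pos hIJ, ← hIJ, hc I]
          have h12 : (((((k - m)! : NNReal) * (δ : NNReal) : NNReal) : ℝ) : ℂ) =
              ((k - m)! * δ : ℂ) := by
            push_cast
            rfl
          refine congrArg₂ (· * ·) h12 (integral_congr_ae (Eventually.of_forall fun z => ?_))
          simp only [tform]
          rw [Complex.mul_conj, Complex.normSq_eq_norm_sq]
        · rw [if_neg hIJ, if_neg hIJ]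
      rw [Finset.sum_congr rfl fun J _ => h11 J, Finset.sum_ite_eq, if_pos (Finset.mem_univ _)]
    rw [Finset.sum_congr rfl fun I _ => h10 I, ← Finset.mul_sum]
    unfold greenSlice
    ring
  rw [hval] at hl
  exact hl

end Pool.Agent.H38.UDB
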